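import Pool.Agent.Lib.MP_defcf3_al.BRP.Base
import Pool.Agent.Lib.MP_defcf3_al.BR.H79.RepCSA

/-!
Project BR7, stage 2, module DIVSEVEN: a central division algebra of degree ℓ is split by an open subgroup of
index ℓ of the absolute Galois group.
-/

open Polynomial Matrix

namespace BRP.H79

universe u v

open BR7 BR7.H79

variable {ℓ : ℕ} [Fact ℓ.Prime] [Fact (Odd ℓ)]


/-! ### Degrees of elements -/

section Deg

variable {F Ω : Type u} [Field F] [Field Ω] [Algebra F Ω] {A : Type u} [Ring A] [Algebra F A]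
  {n : Type v} [Fintype n] [DecidableEq n]

/-- F-independent families have Ω-independent images. -/
theorem li_image (ι : A →ₐ[F] Matrix n n Ω) (hdim : Module.finrank F A = Fintype.card n ^ 2)
    (hspan : Submodule.span Ω (Set.range ι) = ⊤) [FiniteDimensional F A] {κ : Type*} (w : κ → A)
    (hw : LinearIndependent F w) : LinearIndependent Ω (fun i => ι (w i)) := by
  have hs := hw.linearIndepOn_id
  let b := Module.Basis.extend hs
  have hb : ∀ x, b x = x := Module.Basis.extend_apply_self hs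
  let _ : Fintype (hs.extend (Set.subset_univ _)) := FiniteDimensional.fintypeBasisIndex b
  have h := li_basis ι hdim hspan b
  have h2 := h.comp (fun i : κ =>
    (⟨w i, Module.Basis.subset_extend hs ⟨i, rfl⟩⟩ : hs.extend (Set.subset_univ _)))
    (fun i j hij => hw.injective (congrArg Subtype.val hij))
  simpa [Function.comp_def, hb] using h2

theorem noRel (ι : A →ₐ[F] Matrix n n Ω) (hdim : Module.finrank F A = Fintype.card n ^ 2)
    (hspan : Submodule.span Ω (Set.range ι) = ⊤) [FiniteDimensional F A] (x : A) (q : Polynomial Ω)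
    (hq : q.natDegree < (minpoly F x).natDegree) (h : aeval (ι x) q = 0) : q = 0 := by
  have hli := li_image ι hdim hspan _ (linearIndependent_pow (K := F) x)
  rw [aeval_eq_sum_range' hq, Finset.sum_range] at h
  have h2 := Fintype.linearIndependent_iff.1 hli (fun i => q.coeff i) (by simpa [map_pow] using h)
  ext k
  by_cases hk : k < (minpoly F x).natDegree
  · simpa using h2 ⟨k, hk⟩
  · rw [coeff_eq_zero_of_natDegree_lt (by omega)]
    simp

theorem deg_le (ι : A →ₐ[F] Matrix n n Ω) (hdim : Module.finrank F A = Fintype.card n ^ 2)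
    (hspan : Submodule.span Ω (Set.range ι) = ⊤) [FiniteDimensional F A] (x : A) :
    (minpoly F x).natDegree ≤ Fintype.card n := by
  by_contra hlt
  have h := noRel ι hdim hspan x (ι x).charpoly
    (by rw [Matrix.charpoly_natDegree_eq_dim]; omega) (Matrix.aeval_self_charpoly _)
  exact (Matrix.charpoly_monic _).ne_zero h

end Deg

theorem deg_dvd {F D : Type*} [Field F] [DivisionRing D] [Algebra F D] [FiniteDimensional F D] (x : D) :
    (minpoly F x).natDegree ∣ Module.finrank F D := by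
  have hint : IsIntegral F x := Algebra.IsIntegral.isIntegral x
  let I : Ideal F[X] := Ideal.span {minpoly F x}
  have hI : I.IsMaximal := PrincipalIdealRing.isMaximal_of_irreducible (minpoly.irreducible hint)
  let _ : Field (F[X] ⧸ I) := Ideal.Quotient.field I
  let φ : F[X] ⧸ I →+* D := Ideal.Quotient.lift I (aeval x : F[X] →ₐ[F] D).toRingHom (by
    intro a ha
    rw [Ideal.mem_span_singleton] at ha
    obtain ⟨c, rfl⟩ := ha
    simp)
  have hφ : ∀ (a : F) (b : F[X] ⧸ I), φ (a • b) = a • φ b := by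
    intro a b
    obtain ⟨p, rfl⟩ := Ideal.Quotient.mk_surjective b
    have h1 : a • (Ideal.Quotient.mk I p) = Ideal.Quotient.mk I (a • p) := rfl
    rw [h1]
    show aeval x (a • p) = a • aeval x p
    rw [map_smul]
  let _ : Module (F[X] ⧸ I) D := Module.compHom D φ
  have hact : ∀ (b : F[X] ⧸ I) (c : D), b • c = φ b * c := fun b c => rfl
  have hst : IsScalarTower F (F[X] ⧸ I) D := ⟨fun a b c => by
    rw [hact, hact, hφ, smul_mul_assoc]⟩
  rw [← Module.finrank_mul_finrank F (F[X] ⧸ I) D, finrank_quotient_span_eq_natDegree]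
  exact dvd_mul_right _ _

/-! ### Eigenvectors -/

theorem eigen {Ω : Type*} [Field Ω] {n : Type*} [Fintype n] [DecidableEq n] (M : Matrix n n Ω) (p : Polynomial Ω)
    (h0 : aeval M p = 0) (hp0 : 0 < p.natDegree)
    (hmin : ∀ q : Polynomial Ω, q.natDegree < p.natDegree → aeval M q = 0 → q = 0) (r : Ω) (hr : p.IsRoot r) :
    ∃ v : n → Ω, v ≠ 0 ∧ M *ᵥ v = r • v := by
  set q := p /ₘ (X - C r) with hq
  have hpq : (X - C r) * q = p := mul_divByMonic_eq_iff_isRoot.2 hr
  have hdeg : q.natDegree < p.natDegree := by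
    rw [hq, natDegree_divByMonic _ (monic_X_sub_C r), natDegree_X_sub_C]
    omega
  have hq0 : aeval M q ≠ 0 := by
    intro h
    have h1 := hmin q hdeg h
    rw [h1, mul_zero] at hpq
    rw [← hpq] at hp0
    simp at hp0
  have hne : ∃ j i, aeval M q i j ≠ 0 := by
    by_contra hcon
    push Not at hcon
    exact hq0 (by ext i j; simpa using hcon j i)
  obtain ⟨j, i, hij⟩ := hne
  refine ⟨fun i => aeval M q i j, fun h => hij (congrFun h i), ?_⟩
  have h2 : (M - algebraMap Ω _ r) * aeval M q = 0 := by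
    rw [← hpq, map_mul, map_sub, aeval_X, aeval_C] at h0
    exact h0
  rw [sub_mul, sub_eq_zero] at h2
  ext i
  have h3 := congrFun (congrFun h2 i) j
  rw [Matrix.mul_apply] at h3
  simp only [Matrix.mulVec, dotProduct, Pi.smul_apply, smul_eq_mul]
  rw [h3, Algebra.algebraMap_eq_smul_one, smul_mul_assoc, one_mul]
  rfl

theorem one_dim {Ω : Type*} [Field Ω] {n : Type*} [Fintype n] [DecidableEq n] (M : Matrix n n Ω) (p : Polynomial Ω)
    (h0 : aeval M p = 0) (hsp : p.Splits) (hnd : p.roots.Nodup) (hdeg : p.natDegree = Fintype.card n)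
    (hp0 : 0 < p.natDegree)
    (hmin : ∀ q : Polynomial Ω, q.natDegree < p.natDegree → aeval M q = 0 → q = 0) (θ : Ω) (hθ : p.IsRoot θ) :
    ∃ v : n → Ω, v ≠ 0 ∧ M *ᵥ v = θ • v ∧ ∀ w : n → Ω, M *ᵥ w = θ • w → ∃ c : Ω, w = c • v := by
  classical
  have hpne : p ≠ 0 := by rintro rfl; simp at hp0
  have hroot : ∀ r : {r // r ∈ p.roots.toFinset}, p.IsRoot r.1 := fun r =>
    (mem_roots'.1 (Multiset.mem_toFinset.1 r.2)).2
  choose v hv0 hv using fun r : {r // r ∈ p.roots.toFinset} => eigen M p h0 hp0 hmin r.1 (hroot r)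
  have hli : LinearIndependent Ω v := by
    refine Module.End.eigenvectors_linearIndependent' (Matrix.toLin' M) (fun r => r.1)
      Subtype.coe_injective v fun r => ⟨?_, hv0 r⟩
    rw [Module.End.mem_eigenspace_iff, Matrix.toLin'_apply]
    exact hv r
  have hcard : Fintype.card {r // r ∈ p.roots.toFinset} = Module.finrank Ω (n → Ω) := by
    rw [Module.finrank_fintype_fun_eq_card, Fintype.card_coe, Multiset.toFinset_card_of_nodup hnd, ← hdeg,
      hsp.natDegree_eq_card_roots]
  let t : {r // r ∈ p.roots.toFinset} := ⟨θ, Multiset.mem_toFinset.2 ((mem_roots hpne).2 hθ)⟩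
  have hne : Nonempty {r // r ∈ p.roots.toFinset} := ⟨t⟩
  let B := basisOfLinearIndependentOfCardEqFinrank hli hcard
  have hB : ∀ r, B r = v r := fun r => by simp [B]
  refine ⟨v t, hv0 t, hv t, fun w hw => ⟨B.repr w t, ?_⟩⟩
  have hw1 : w = ∑ r, B.repr w r • v r := by
    conv_lhs => rw [← B.sum_repr w]
    simp only [hB]
  have h2 : ∑ r, (B.repr w r * (r.1 - θ)) • v r = 0 := by
    have h3 : M *ᵥ w = ∑ r, B.repr w r • (r.1 • v r) := by
      conv_lhs => rw [hw1]
      rw [Matrix.mulVec_sum]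
      exact Finset.sum_congr rfl fun r _ => by rw [Matrix.mulVec_smul, hv]
    have h4 : θ • w = ∑ r, B.repr w r • (θ • v r) := by
      conv_lhs => rw [hw1]
      rw [Finset.smul_sum]
      exact Finset.sum_congr rfl fun r _ => smul_comm _ _ _
    simp only [mul_sub, sub_smul, Finset.sum_sub_distrib, mul_smul]
    rw [← h3, ← h4, hw, sub_self]
  have h5 := Fintype.linearIndependent_iff.1 hli _ h2
  conv_lhs => rw [hw1]
  refine Finset.sum_eq_single t (fun r _ hr => ?_) (by simp)
  have h6 := h5 r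
  rcases mul_eq_zero.1 h6 with h7 | h7
  · rw [h7, zero_smul]
  · exact absurd (Subtype.ext (sub_eq_zero.1 h7)) hr

/-! ### Locally constant maps -/

/-- The orbit map of an element is locally constant. -/
theorem lc_apply {F Ω : Type*} [Field F] [Field Ω] [Algebra F Ω] [Algebra.IsIntegral F Ω] (x : Ω) :
    IsLocallyConstant (fun g : Ω ≃ₐ[F] Ω => g x) := by
  rw [IsLocallyConstant.iff_exists_open]
  intro g
  have hfd : FiniteDimensional F (IntermediateField.adjoin F {x}) :=
    IntermediateField.adjoin.finiteDimensional (Algebra.IsIntegral.isIntegral x)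
  refine ⟨(fun h => g⁻¹ * h) ⁻¹' ((IntermediateField.adjoin F {x}).fixingSubgroup : Set (Ω ≃ₐ[F] Ω)),
    (IntermediateField.fixingSubgroup_isOpen _).preimage (continuous_const_mul _), ?_, ?_⟩
  · simp [one_mem]
  · intro h hh
    have h1 : (g⁻¹ * h) x = x := by
      have h2 : g⁻¹ * h ∈ (IntermediateField.adjoin F {x}).fixingSubgroup := hh
      rw [IntermediateField.mem_fixingSubgroup_iff] at h2
      exact h2 x (IntermediateField.mem_adjoin_simple_self F x)
    have h3 : h x = g ((g⁻¹ * h) x) := by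
      simp [AlgEquiv.mul_apply, AlgEquiv.aut_inv]
    rw [h3, h1]

theorem lc_pi {F Ω : Type*} [Field F] [Field Ω] [Algebra F Ω] [Algebra.IsIntegral F Ω] {n : Type*}
    [Finite n] (v : n → Ω) : IsLocallyConstant (fun g : Ω ≃ₐ[F] Ω => fun i => g (v i)) := by
  rw [IsLocallyConstant.iff_exists_open]
  intro g
  have h := fun i => (IsLocallyConstant.iff_exists_open _).1 (lc_apply (F := F) (v i)) g
  choose U hU hg hc using h
  exact ⟨⋂ i, U i, isOpen_iInter_of_finite hU, Set.mem_iInter.2 hg, fun x hx =>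
    funext fun i => hc i x (Set.mem_iInter.1 hx i)⟩

/-! ### The main argument -/

/-- The coboundary attached to an eigenline fixed by a subgroup. -/
theorem split_of_line {F Ω : Type u} [Field F] [Field Ω] [Algebra F Ω] [Algebra.IsIntegral F Ω]
    {A : Type u} [Ring A] [Algebra F A] {n : Type v} [Fintype n] [DecidableEq n]
    (f : (Ω ≃ₐ[F] Ω) → (Ω ≃ₐ[F] Ω) → Ωˣ) (ι : A →ₐ[F] Matrix n n Ω)
    (U : (Ω ≃ₐ[F] Ω) → (Matrix n n Ω)ˣ) (lc : IsLocallyConstant U)
    (tw : ∀ (g : Ω ≃ₐ[F] Ω) (a : A), (ι a).map g = (↑(U g)⁻¹ : Matrix n n Ω) * ι a * (U g : Matrix n n Ω))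
    (fac : ∀ g h : Ω ≃ₐ[F] Ω, (U g : Matrix n n Ω) * (U h : Matrix n n Ω).map g =
      (f g h : Ω) • (U (g * h) : Matrix n n Ω))
    (x : A) (θ : Ω) (v : n → Ω) (hv0 : v ≠ 0) (hv : ι x *ᵥ v = θ • v)
    (hone : ∀ w : n → Ω, ι x *ᵥ w = θ • w → ∃ c : Ω, w = c • v)
    (H : Subgroup (Ω ≃ₐ[F] Ω)) (hH : ∀ h ∈ H, h θ = θ) :
    (fun g h : H => f g h) ∈ B2 H Ωˣ := by
  -- the semilinear action preserves the line
  have hmapv : ∀ (g : Ω ≃ₐ[F] Ω) (N : Matrix n n Ω) (w : n → Ω),
      (fun i => g ((N *ᵥ w) i)) = (N.map g) *ᵥ (fun i => g (w i)) := by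
    intro g N w
    ext i
    simp [Matrix.mulVec, dotProduct, map_sum, map_mul]
  have hline : ∀ g : Ω ≃ₐ[F] Ω, g θ = θ →
      ∃ c : Ω, (U g : Matrix n n Ω) *ᵥ (fun i => g (v i)) = c • v := by
    intro g hg
    apply hone
    have h1 : ((ι x).map g) *ᵥ (fun i => g (v i)) = θ • (fun i => g (v i)) := by
      rw [← hmapv, hv]
      ext i
      simp [hg]
    rw [tw] at h1
    have h2 := congrArg (fun w => (U g : Matrix n n Ω) *ᵥ w) h1
    simp only [Matrix.mulVec_mulVec, Matrix.mulVec_smul] at h2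
    rw [← mul_assoc, ← mul_assoc, Units.mul_inv, one_mul] at h2
    rw [Matrix.mulVec_mulVec]
    exact h2
  obtain ⟨i0, hi0⟩ : ∃ i, v i ≠ 0 := by
    by_contra hcon
    push Not at hcon
    exact hv0 (funext hcon)
  let c : (Ω ≃ₐ[F] Ω) → Ω := fun g => ((U g : Matrix n n Ω) *ᵥ (fun i => g (v i))) i0 / v i0
  have hc : ∀ g : Ω ≃ₐ[F] Ω, g θ = θ → (U g : Matrix n n Ω) *ᵥ (fun i => g (v i)) = c g • v := by
    intro g hg
    obtain ⟨e, he⟩ := hline g hg
    have h1 : c g = e := by
      simp only [c, he, Pi.smul_apply, smul_eq_mul]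
      rw [mul_div_assoc, div_self hi0, mul_one]
    rw [h1, he]
  have hc0 : ∀ g : Ω ≃ₐ[F] Ω, g θ = θ → c g ≠ 0 := by
    intro g hg h0
    have h1 := hc g hg
    rw [h0, zero_smul] at h1
    have h2 := congrArg (fun w => (↑(U g)⁻¹ : Matrix n n Ω) *ᵥ w) h1
    simp only [Matrix.mulVec_mulVec, Matrix.mulVec_zero] at h2
    rw [Units.inv_mul, Matrix.one_mulVec] at h2
    have h3 := congrFun h2 i0
    simp only [Pi.zero_apply] at h3
    exact hi0 ((map_eq_zero g).1 h3)
  have hclc : IsLocallyConstant c :=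
    lc.comp₂ (lc_pi (F := F) v) (fun (N : (Matrix n n Ω)ˣ) (w : n → Ω) =>
      ((N : Matrix n n Ω) *ᵥ w) i0 / v i0)
  refine ⟨fun h => Units.mk0 (c h) (hc0 h (hH h h.2)), ?_, ?_⟩
  · -- locally constant
    have h1 : IsLocallyConstant (fun h : H => c h) := hclc.comp_continuous continuous_subtype_val
    rw [IsLocallyConstant.iff_exists_open] at h1 ⊢
    intro h
    obtain ⟨V, hV, hhV, hcV⟩ := h1 h
    exact ⟨V, hV, hhV, fun x' hx' => Units.ext (hcV x' hx')⟩
  · intro g h
    have hg := hH g g.2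
    have hh := hH h h.2
    have hgh := hH (g * h : H) (g * h).2
    have e1 : (U (g : Ω ≃ₐ[F] Ω) : Matrix n n Ω) *ᵥ
        (fun i => (g : Ω ≃ₐ[F] Ω) (((U (h : Ω ≃ₐ[F] Ω) : Matrix n n Ω) *ᵥ
          (fun i => (h : Ω ≃ₐ[F] Ω) (v i))) i)) =
        ((g : Ω ≃ₐ[F] Ω) (c h) * c g) • v := by
      rw [hc h hh]
      have e2 : (fun i => (g : Ω ≃ₐ[F] Ω) ((c (h : Ω ≃ₐ[F] Ω) • v) i)) =
          (g : Ω ≃ₐ[F] Ω) (c h) • fun i => (g : Ω ≃ₐ[F] Ω) (v i) := by
        ext i
        simp
      rw [e2, Matrix.mulVec_smul, hc g hg, smul_smul]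
    rw [hmapv, Matrix.mulVec_mulVec, fac] at e1
    have e3 : (fun i => (g : Ω ≃ₐ[F] Ω) ((h : Ω ≃ₐ[F] Ω) (v i))) =
        fun i => ((g : Ω ≃ₐ[F] Ω) * (h : Ω ≃ₐ[F] Ω)) (v i) := rfl
    rw [e3, Matrix.smul_mulVec, ← Subgroup.coe_mul, hc _ hgh, smul_smul] at e1
    have e4 := congrFun e1 i0
    simp only [Pi.smul_apply, smul_eq_mul] at e4
    have e5 := mul_right_cancel₀ hi0 e4
    rw [eq_mul_inv_iff_mul_eq]
    ext
    simp only [Units.val_mul, Units.val_mk0, Subgroup.smul_def]
    rw [e5, mul_comm]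
    rfl

theorem divseven : DivSevenStatement.{u} ℓ := by
  intro F Ω _ _ _ _ _ _ D _ _ _ f d
  obtain ⟨ι, U, hne, hdim, hspan, lc, tw, fac⟩ := d
  have hlp : ℓ.Prime := Fact.out
  have hl0 : 0 < ℓ := hlp.pos
  have hdim' : Module.finrank F D = ℓ ^ 2 := by rw [hdim]; simp
  have hpos : 0 < Module.finrank F D := by rw [hdim']; exact pow_pos hl0 2
  have hfd : FiniteDimensional F D := Module.finite_of_finrank_pos hpos
  have hint : Algebra.IsIntegral F Ω := inferInstance
  -- a separable element outside F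
  have hbt : (⊥ : Subalgebra F D) ≠ ⊤ := by
    intro h
    have h1 : Module.finrank F (⊥ : Subalgebra F D) = Module.finrank F D := by
      rw [h]
      exact Subalgebra.topEquiv.toLinearEquiv.finrank_eq
    rw [Subalgebra.finrank_bot, hdim'] at h1
    have h2 : 1 < ℓ ^ 2 := Nat.one_lt_pow two_ne_zero hlp.one_lt
    omega
  obtain ⟨x, hx, hsep⟩ := JacobsonNoether.exists_separable_and_not_isCentral' hbt
  have hxint : IsIntegral F x := Algebra.IsIntegral.isIntegral x
  have hdeg : (minpoly F x).natDegree = ℓ := by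
    have h1 : (minpoly F x).natDegree ∣ ℓ ^ 2 := by
      have := deg_dvd (F := F) x
      rw [hdim'] at this
      exact this
    have h2 := deg_le ι hdim hspan x
    rw [Fintype.card_fin] at h2
    have h3 : (minpoly F x).natDegree ≠ 1 := by
      intro h
      rw [minpoly.natDegree_eq_one_iff] at h
      exact hx (Algebra.mem_bot.2 h)
    obtain ⟨k, hk, hk'⟩ := (Nat.dvd_prime_pow hlp).1 h1
    interval_cases k
    · exact absurd (by simpa using hk') h3
    · simpa using hk'
    · rw [hk'] at h2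
      have h4 : ℓ < ℓ ^ 2 := by
        have := Nat.pow_lt_pow_right hlp.one_lt (show 1 < 2 by norm_num)
        simpa using this
      omega
  set p := (minpoly F x).map (algebraMap F Ω) with hp
  have hpdeg : p.natDegree = ℓ := by rw [hp, natDegree_map, hdeg]
  have hpsep : p.Separable := Polynomial.Separable.map hsep
  have hsp : p.Splits := IsSepClosed.splits_codomain _ hsep
  have h0 : aeval (ι x) p = 0 := by
    rw [hp, aeval_map_algebraMap, aeval_algHom_apply, minpoly.aeval, map_zero]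
  have hroots : p.roots.card = ℓ := by rw [← hsp.natDegree_eq_card_roots, hpdeg]
  obtain ⟨θ, hθ⟩ : ∃ θ, θ ∈ p.roots := Multiset.card_pos_iff_exists_mem.1 (by rw [hroots]; exact hl0)
  have hθr : p.IsRoot θ := (mem_roots'.1 hθ).2
  obtain ⟨v, hv0, hv, hone⟩ := one_dim (ι x) p h0 hsp (nodup_roots hpsep) (by rw [hpdeg]; simp)
    (by rw [hpdeg]; exact hl0)
    (fun q hq h => noRel ι hdim hspan x q (by rw [hpdeg] at hq; rw [hdeg]; exact hq) h) θ hθr
  have hθint : IsIntegral F θ := Algebra.IsIntegral.isIntegral θ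
  have hmin : minpoly F θ = minpoly F x := by
    symm
    refine minpoly.eq_of_irreducible_of_monic (minpoly.irreducible hxint) ?_ (minpoly.monic hxint)
    have := hθr
    rw [IsRoot.def, hp, eval_map_algebraMap] at this
    exact this
  have hfdK : FiniteDimensional F (IntermediateField.adjoin F {θ}) :=
    IntermediateField.adjoin.finiteDimensional hθint
  refine ⟨(IntermediateField.adjoin F {θ}).fixingSubgroup, IntermediateField.fixingSubgroup_isOpen _, ?_,
    ?_⟩
  · rw [← IntermediateField.finrank_eq_fixingSubgroup_index, IntermediateField.adjoin.finrank hθint, hmin,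
      hdeg]
  · refine split_of_line f ι U lc tw fac x θ v hv0 hv hone _ fun h hh => ?_
    rw [IntermediateField.mem_fixingSubgroup_iff] at hh
    exact hh θ (IntermediateField.mem_adjoin_simple_self F θ)

end BRP.H79
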